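import Mathlib

set_option autoImplicit false

/-!
# Convergents per period in orbits of a linear fractional map

For `k = 375`, `d = 15` (so `R = 4 d^2 / (k - d^2) = 6`) and `x₀ = 19`, the orbit of `x₀` under
`f(x) = (d x + k) / (x + d)` contains, for every `t`, the two convergents of index `1 + 10 t` and
`8 + 10 t` of `√375`, whose continued fraction has minimal period length `10`.  Moreover `x₀` does
not lie on the two-sided orbit of `∞`, for this `d` or for any other positive rational `d'` for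
which `4 d'^2 / (k - d'^2)` is an integer.
-/

open OnePoint

namespace Pool.Agent.Results.MP_f17d28_nt.TwoPerPeriod

/-- The map `f(x) = (d x + k) / (x + d)` on `ℚ ∪ {∞}`, with `f(∞) = d` and `f(-d) = ∞`. -/
noncomputable def lft (k : ℕ) (d : ℚ) (x : OnePoint ℚ) : OnePoint ℚ :=
  x.elim ((d : ℚ) : OnePoint ℚ)
    (fun y : ℚ => if y + d = 0 then ∞ else (((d * y + k) / (y + d) : ℚ) : OnePoint ℚ))

lemma lft_infty (k : ℕ) (d : ℚ) : lft k d ∞ = ((d : ℚ) : OnePoint ℚ) := rfl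

lemma lft_coe (k : ℕ) (d y : ℚ) : lft k d (y : OnePoint ℚ) =
    if y + d = 0 then ∞ else (((d * y + k) / (y + d) : ℚ) : OnePoint ℚ) := rfl

lemma lft_coe_of_ne {k : ℕ} {d y : ℚ} (h : y + d ≠ 0) : lft k d (y : OnePoint ℚ) =
    (((d * y + k) / (y + d) : ℚ) : OnePoint ℚ) := by
  rw [lft_coe, if_neg h]

lemma lft_coe_of_eq {k : ℕ} {d y : ℚ} (h : y + d = 0) : lft k d (y : OnePoint ℚ) = ∞ := by
  rw [lft_coe, if_pos h]

lemma lft_neg_lft {k : ℕ} {d : ℚ} (h : d ^ 2 ≠ k) (x : OnePoint ℚ) :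
    lft k (-d) (lft k d x) = x := by
  have hk : (k : ℚ) - d ^ 2 ≠ 0 := sub_ne_zero.mpr (Ne.symm h)
  induction x using OnePoint.rec with
  | infty => rw [lft_infty, lft_coe_of_eq (by ring)]
  | coe y =>
    by_cases hy : y + d = 0
    · rw [lft_coe_of_eq hy, lft_infty]
      congr 1
      linarith
    · rw [lft_coe_of_ne hy, lft_coe_of_ne]
      · congr 1
        have h1 : (d * y + k) / (y + d) + -d = (k - d ^ 2) / (y + d) := by
          field_simp; ring
        rw [h1]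
        field_simp
        ring
      · have h1 : (d * y + k) / (y + d) + -d = (k - d ^ 2) / (y + d) := by
          field_simp; ring
        rw [h1]
        exact div_ne_zero hk hy

/-- When `d² ≠ k`, the map `lft k d` as a permutation of `ℚ ∪ {∞}` (the inverse map is
`lft k (-d)`); its integer powers are the maps `f^n`, `n ∈ ℤ`. -/
noncomputable def lftPerm (k : ℕ) (d : ℚ) (h : d ^ 2 ≠ k) : Equiv.Perm (OnePoint ℚ) where
  toFun := lft k d
  invFun := lft k (-d)
  left_inv := lft_neg_lft h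
  right_inv := fun x => by
    have := lft_neg_lft (k := k) (d := -d) (by simpa using h) x
    simpa using this

/-- The partial quotients `c₀, c₁, c₂, …` of the simple continued fraction of `ξ`. -/
noncomputable def partialQuotient : ℝ → ℕ → ℤ
  | ξ, 0 => ⌊ξ⌋
  | ξ, n + 1 => partialQuotient (Int.fract ξ)⁻¹ n

/-- `L` is the minimal period length of the continued fraction
`√k = [c₀; c₁, …, c_L, c₁, …, c_L, …]`: the least `L ≥ 1` with `c_{j+L} = c_j` for all `j ≥ 1`. -/
def IsPeriodLength (k L : ℕ) : Prop :=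
  IsLeast {L : ℕ | 0 < L ∧ ∀ j : ℕ, 1 ≤ j →
    partialQuotient (√(k : ℝ)) (j + L) = partialQuotient (√(k : ℝ)) j} L

/-- The convergent `p_j / q_j = [c₀; c₁, …, c_{j-1}]` of `√k`, for `j ≥ 1`. -/
noncomputable def conv (k j : ℕ) : ℚ := Real.convergent (√(k : ℝ)) (j - 1)

/-- The forward orbit `{f^n(x₀) : n ≥ 0}` of `x₀`, intersected with `ℚ`. -/
def orbit (k : ℕ) (d x₀ : ℚ) : Set ℚ :=
  {y : ℚ | ∃ n : ℕ, (lft k d)^[n] (x₀ : OnePoint ℚ) = (y : OnePoint ℚ)}

/-! ### The continued fraction of `√375` -/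

lemma sqrt_lb : (19 : ℝ) < √375 := by
  apply Real.lt_sqrt_of_sq_lt; norm_num

lemma sqrt_ub : √375 < (20 : ℝ) := by
  rw [Real.sqrt_lt' (by norm_num)]; norm_num

lemma sqrt_sq : √375 * √375 = (375 : ℝ) := Real.mul_self_sqrt (by norm_num)

/-- the floor and next complete quotient, for complete quotients `(m + √375)/D` -/
lemma step {m D c m' D' : ℝ} {z : ℤ} (hz : (z : ℝ) = c) (hD : 0 < D)
    (h1 : c * D ≤ m + 19) (h2 : m + 20 ≤ (c + 1) * D)
    (hm' : m' = c * D - m) (hD' : D' * D = 375 - m' ^ 2) (_hm19 : m' ≤ 19) (hD'0 : 0 < D') :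
    ⌊(m + √375) / D⌋ = z ∧ (Int.fract ((m + √375) / D))⁻¹ = (m' + √375) / D' := by
  have hl := sqrt_lb
  have hu := sqrt_ub
  have hs := sqrt_sq
  have hfl : ⌊(m + √375) / D⌋ = z := by
    rw [Int.floor_eq_iff, hz]
    constructor
    · rw [le_div_iff₀ hD]; linarith
    · rw [div_lt_iff₀ hD]; linarith
  refine ⟨hfl, ?_⟩
  have hfr : Int.fract ((m + √375) / D) = (√375 - m') / D := by
    have := Int.self_sub_floor ((m + √375) / D)
    rw [← this, hfl, hz, hm']
    field_simp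
    ring
  have hpos : 0 < √375 - m' := by linarith
  rw [hfr, inv_div, div_eq_div_iff hpos.ne' hD'0.ne']
  nlinarith

lemma s0 : ⌊(0 + √375) / 1⌋ = 19 ∧ (Int.fract ((0 + √375) / 1))⁻¹ = (19 + √375) / 14 :=
  step (c := 19) (by norm_num) (by norm_num) (by norm_num) (by norm_num) (by norm_num)
    (by norm_num) (by norm_num) (by norm_num)
lemma s1 : ⌊(19 + √375) / 14⌋ = 2 ∧ (Int.fract ((19 + √375) / 14))⁻¹ = (9 + √375) / 21 :=
  step (c := 2) (by norm_num) (by norm_num) (by norm_num) (by norm_num) (by norm_num)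
    (by norm_num) (by norm_num) (by norm_num)
lemma s2 : ⌊(9 + √375) / 21⌋ = 1 ∧ (Int.fract ((9 + √375) / 21))⁻¹ = (12 + √375) / 11 :=
  step (c := 1) (by norm_num) (by norm_num) (by norm_num) (by norm_num) (by norm_num)
    (by norm_num) (by norm_num) (by norm_num)
lemma s3 : ⌊(12 + √375) / 11⌋ = 2 ∧ (Int.fract ((12 + √375) / 11))⁻¹ = (10 + √375) / 25 :=
  step (c := 2) (by norm_num) (by norm_num) (by norm_num) (by norm_num) (by norm_num)
    (by norm_num) (by norm_num) (by norm_num)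
lemma s4 : ⌊(10 + √375) / 25⌋ = 1 ∧ (Int.fract ((10 + √375) / 25))⁻¹ = (15 + √375) / 6 :=
  step (c := 1) (by norm_num) (by norm_num) (by norm_num) (by norm_num) (by norm_num)
    (by norm_num) (by norm_num) (by norm_num)
lemma s5 : ⌊(15 + √375) / 6⌋ = 5 ∧ (Int.fract ((15 + √375) / 6))⁻¹ = (15 + √375) / 25 :=
  step (c := 5) (by norm_num) (by norm_num) (by norm_num) (by norm_num) (by norm_num)
    (by norm_num) (by norm_num) (by norm_num)
lemma s6 : ⌊(15 + √375) / 25⌋ = 1 ∧ (Int.fract ((15 + √375) / 25))⁻¹ = (10 + √375) / 11 :=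
  step (c := 1) (by norm_num) (by norm_num) (by norm_num) (by norm_num) (by norm_num)
    (by norm_num) (by norm_num) (by norm_num)
lemma s7 : ⌊(10 + √375) / 11⌋ = 2 ∧ (Int.fract ((10 + √375) / 11))⁻¹ = (12 + √375) / 21 :=
  step (c := 2) (by norm_num) (by norm_num) (by norm_num) (by norm_num) (by norm_num)
    (by norm_num) (by norm_num) (by norm_num)
lemma s8 : ⌊(12 + √375) / 21⌋ = 1 ∧ (Int.fract ((12 + √375) / 21))⁻¹ = (9 + √375) / 14 :=
  step (c := 1) (by norm_num) (by norm_num) (by norm_num) (by norm_num) (by norm_num)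
    (by norm_num) (by norm_num) (by norm_num)
lemma s9 : ⌊(9 + √375) / 14⌋ = 2 ∧ (Int.fract ((9 + √375) / 14))⁻¹ = (19 + √375) / 1 :=
  step (c := 2) (by norm_num) (by norm_num) (by norm_num) (by norm_num) (by norm_num)
    (by norm_num) (by norm_num) (by norm_num)
lemma s10 : ⌊(19 + √375) / 1⌋ = 38 ∧ (Int.fract ((19 + √375) / 1))⁻¹ = (19 + √375) / 14 :=
  step (c := 38) (by norm_num) (by norm_num) (by norm_num) (by norm_num) (by norm_num)
    (by norm_num) (by norm_num) (by norm_num)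

lemma pq_zero (ξ : ℝ) : partialQuotient ξ 0 = ⌊ξ⌋ := by rw [partialQuotient]

lemma pq_succ (ξ : ℝ) (n : ℕ) :
    partialQuotient ξ (n + 1) = partialQuotient (Int.fract ξ)⁻¹ n := by rw [partialQuotient]

lemma root_eq : √((375 : ℕ) : ℝ) = (0 + √375) / 1 := by norm_num

/-- the partial quotients with indices at least `1`, in terms of the complete quotient `ξ₁` -/
lemma pq_one_add (n : ℕ) : partialQuotient (√((375 : ℕ) : ℝ)) (n + 1) =
    partialQuotient ((19 + √375) / 14) n := by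
  rw [root_eq, pq_succ, s0.2]

lemma pq_periodic (n : ℕ) : partialQuotient ((19 + √375) / 14) (n + 10) =
    partialQuotient ((19 + √375) / 14) n := by
  rw [show n + 10 = n + 1 + 1 + 1 + 1 + 1 + 1 + 1 + 1 + 1 + 1 from rfl]
  rw [pq_succ, s1.2, pq_succ, s2.2, pq_succ, s3.2, pq_succ, s4.2, pq_succ, s5.2, pq_succ, s6.2,
    pq_succ, s7.2, pq_succ, s8.2, pq_succ, s9.2, pq_succ, s10.2]

lemma pq_vals : partialQuotient ((19 + √375) / 14) 0 = 2 ∧
    partialQuotient ((19 + √375) / 14) 1 = 1 ∧ partialQuotient ((19 + √375) / 14) 2 = 2 ∧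
    partialQuotient ((19 + √375) / 14) 3 = 1 ∧ partialQuotient ((19 + √375) / 14) 4 = 5 ∧
    partialQuotient ((19 + √375) / 14) 5 = 1 ∧ partialQuotient ((19 + √375) / 14) 6 = 2 ∧
    partialQuotient ((19 + √375) / 14) 7 = 1 ∧ partialQuotient ((19 + √375) / 14) 8 = 2 ∧
    partialQuotient ((19 + √375) / 14) 9 = 38 := by
  refine ⟨?_, ?_, ?_, ?_, ?_, ?_, ?_, ?_, ?_, ?_⟩
  · rw [pq_zero, s1.1]
  · rw [pq_succ, s1.2, pq_zero, s2.1]
  · rw [pq_succ, s1.2, pq_succ, s2.2, pq_zero, s3.1]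
  · rw [pq_succ, s1.2, pq_succ, s2.2, pq_succ, s3.2, pq_zero, s4.1]
  · rw [pq_succ, s1.2, pq_succ, s2.2, pq_succ, s3.2, pq_succ, s4.2, pq_zero, s5.1]
  · rw [pq_succ, s1.2, pq_succ, s2.2, pq_succ, s3.2, pq_succ, s4.2, pq_succ, s5.2, pq_zero, s6.1]
  · rw [pq_succ, s1.2, pq_succ, s2.2, pq_succ, s3.2, pq_succ, s4.2, pq_succ, s5.2, pq_succ, s6.2,
      pq_zero, s7.1]
  · rw [pq_succ, s1.2, pq_succ, s2.2, pq_succ, s3.2, pq_succ, s4.2, pq_succ, s5.2, pq_succ, s6.2,
      pq_succ, s7.2, pq_zero, s8.1]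
  · rw [pq_succ, s1.2, pq_succ, s2.2, pq_succ, s3.2, pq_succ, s4.2, pq_succ, s5.2, pq_succ, s6.2,
      pq_succ, s7.2, pq_succ, s8.2, pq_zero, s9.1]
  · rw [pq_succ, s1.2, pq_succ, s2.2, pq_succ, s3.2, pq_succ, s4.2, pq_succ, s5.2, pq_succ, s6.2,
      pq_succ, s7.2, pq_succ, s8.2, pq_succ, s9.2, pq_zero, s10.1]

/-- the minimal period length of the continued fraction of `√375` is `10` -/
lemma isPeriodLength : IsPeriodLength 375 10 := by
  constructor
  · refine ⟨by norm_num, fun j hj => ?_⟩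
    obtain ⟨n, rfl⟩ : ∃ n, j = n + 1 := ⟨j - 1, by omega⟩
    rw [show n + 1 + 10 = (n + 10) + 1 by ring, pq_one_add, pq_one_add, pq_periodic]
  · rintro L ⟨hL0, hL⟩
    by_contra hlt
    push Not at hlt
    have h := hL (10 - L) (by omega)
    rw [show 10 - L + L = 9 + 1 by omega, show 10 - L = (9 - L) + 1 by omega, pq_one_add,
      pq_one_add, pq_vals.2.2.2.2.2.2.2.2.2] at h
    obtain ⟨v0, v1, v2, v3, v4, v5, v6, v7, v8, -⟩ := pq_vals
    have hL' : L = 1 ∨ L = 2 ∨ L = 3 ∨ L = 4 ∨ L = 5 ∨ L = 6 ∨ L = 7 ∨ L = 8 ∨ L = 9 := by omega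
    rcases hL' with rfl | rfl | rfl | rfl | rfl | rfl | rfl | rfl | rfl
    · norm_num [v8] at h
    · norm_num [v7] at h
    · norm_num [v6] at h
    · norm_num [v5] at h
    · norm_num [v4] at h
    · norm_num [v3] at h
    · norm_num [v2] at h
    · norm_num [v1] at h
    · norm_num [v0] at h

/-! ### The convergents of `√375` -/

lemma conv_ten (n : ℕ) : Real.convergent ((19 + √375) / 1) n = 19 + Real.convergent ((0 + √375) / 1) n := by
  cases n with
  | zero =>
    rw [Real.convergent_zero, Real.convergent_zero, s0.1, s10.1]; norm_num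
  | succ n =>
    rw [Real.convergent_succ, Real.convergent_succ, s0.1, s0.2, s10.1, s10.2]
    push_cast
    ring

/-- the shift by one period on convergents -/
def g (x : ℚ) : ℚ := (15124 * x + 375 * 781) / (781 * x + 15124)

lemma convergent_pos (n : ℕ) : 0 < Real.convergent ((19 + √375) / 14) n ∧
    0 < Real.convergent ((9 + √375) / 21) n ∧ 0 < Real.convergent ((12 + √375) / 11) n ∧
    0 < Real.convergent ((10 + √375) / 25) n ∧ 0 < Real.convergent ((15 + √375) / 6) n ∧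
    0 < Real.convergent ((15 + √375) / 25) n ∧ 0 < Real.convergent ((10 + √375) / 11) n ∧
    0 < Real.convergent ((12 + √375) / 21) n ∧ 0 < Real.convergent ((9 + √375) / 14) n ∧
    0 < Real.convergent ((19 + √375) / 1) n := by
  induction n with
  | zero =>
    simp only [Real.convergent_zero, s1.1, s2.1, s3.1, s4.1, s5.1, s6.1, s7.1, s8.1, s9.1, s10.1]
    norm_num
  | succ n ih =>
    obtain ⟨h1, h2, h3, h4, h5, h6, h7, h8, h9, h10⟩ := ih
    simp only [Real.convergent_succ, s1.1, s2.1, s3.1, s4.1, s5.1, s6.1, s7.1, s8.1, s9.1, s10.1,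
      s1.2, s2.2, s3.2, s4.2, s5.2, s6.2, s7.2, s8.2, s9.2, s10.2]
    push_cast
    refine ⟨?_, ?_, ?_, ?_, ?_, ?_, ?_, ?_, ?_, ?_⟩ <;> positivity

lemma convergent_root_pos (n : ℕ) : 0 < Real.convergent ((0 + √375) / 1) n := by
  cases n with
  | zero => rw [Real.convergent_zero, s0.1]; norm_num
  | succ n =>
    rw [Real.convergent_succ, s0.1, s0.2]
    have := (convergent_pos n).1
    push_cast
    positivity

lemma convergent_shift (n : ℕ) : Real.convergent ((0 + √375) / 1) (n + 10) =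
    g (Real.convergent ((0 + √375) / 1) n) := by
  have hx := convergent_root_pos n
  rw [show n + 10 = n + 1 + 1 + 1 + 1 + 1 + 1 + 1 + 1 + 1 + 1 from rfl]
  simp only [Real.convergent_succ, s0.1, s1.1, s2.1, s3.1, s4.1, s5.1, s6.1, s7.1, s8.1, s9.1,
      s0.2, s1.2, s2.2, s3.2, s4.2, s5.2, s6.2, s7.2, s8.2, s9.2, conv_ten]
  generalize Real.convergent ((0 + √375) / 1) n = x at hx
  rw [g]
  push_cast
  field_simp
  ring

lemma convergent_seven : Real.convergent ((0 + √375) / 1) 7 = 4086 / 211 := by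
  rw [show 7 = 0 + 1 + 1 + 1 + 1 + 1 + 1 + 1 from rfl]
  simp only [Real.convergent_succ, s0.1, s1.1, s2.1, s3.1, s4.1, s5.1, s6.1, s7.1,
      s0.2, s1.2, s2.2, s3.2, s4.2, s5.2, s6.2, Real.convergent_zero]
  norm_num

/-! ### The orbit of `19` -/

/-- the map `f` on positive rationals -/
def fq (x : ℚ) : ℚ := (15 * x + 375) / (x + 15)

lemma fq_pos {x : ℚ} (hx : 0 < x) : 0 < fq x := by
  unfold fq; positivity

lemma fq_iterate_pos {x : ℚ} (hx : 0 < x) (n : ℕ) : 0 < fq^[n] x := by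
  induction n with
  | zero => simpa using hx
  | succ n ih => rw [Function.iterate_succ_apply']; exact fq_pos ih

lemma lft_iterate {x : ℚ} (hx : 0 < x) (n : ℕ) :
    (lft 375 ((15 : ℕ) : ℚ))^[n] (x : OnePoint ℚ) = ((fq^[n] x : ℚ) : OnePoint ℚ) := by
  induction n with
  | zero => rfl
  | succ n ih =>
    rw [Function.iterate_succ_apply', ih, Function.iterate_succ_apply', lft_coe_of_ne]
    · unfold fq
      push_cast
      rfl
    · have := fq_iterate_pos hx n
      push_cast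
      positivity

lemma fq_two {x : ℚ} (hx : 0 < x) : fq (fq x) = (20 * x + 375) / (x + 20) := by
  unfold fq
  field_simp
  ring

lemma fq_ten {x : ℚ} (hx : 0 < x) : fq^[10] x = g x := by
  have h2 : ∀ y : ℚ, 0 < y → 0 < (20 * y + 375) / (y + 20) := fun y hy => by positivity
  have e : fq^[10] x = fq (fq (fq (fq (fq (fq (fq (fq (fq (fq x))))))))) := rfl
  have hx2 := h2 x hx
  have hx4 := h2 _ hx2
  have hx6 := h2 _ hx4
  have hx8 := h2 _ hx6
  rw [e, fq_two hx, fq_two hx2, fq_two hx4, fq_two hx6, fq_two hx8]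
  unfold g
  field_simp
  ring

lemma fq_five : fq^[5] 19 = 4086 / 211 := by
  have e : fq^[5] 19 = fq (fq (fq (fq (fq 19)))) := rfl
  rw [e]
  unfold fq
  norm_num

lemma conv_one_add (t : ℕ) : Real.convergent ((0 + √375) / 1) (t * 10) = fq^[t * 10] 19 := by
  induction t with
  | zero => rw [zero_mul, Real.convergent_zero, s0.1]; norm_num
  | succ t ih =>
    rw [show (t + 1) * 10 = t * 10 + 10 by ring, convergent_shift, ih, add_comm (t * 10) 10,
      Function.iterate_add_apply, fq_ten (fq_iterate_pos (by norm_num) _)]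

lemma conv_eight_add (t : ℕ) :
    Real.convergent ((0 + √375) / 1) (7 + t * 10) = fq^[5 + t * 10] 19 := by
  induction t with
  | zero => rw [zero_mul, add_zero, add_zero, convergent_seven, fq_five]
  | succ t ih =>
    rw [show 7 + (t + 1) * 10 = 7 + t * 10 + 10 by ring, convergent_shift, ih,
      show 5 + (t + 1) * 10 = 10 + (5 + t * 10) by ring,
      Function.iterate_add_apply fq 10 (5 + t * 10), fq_ten (fq_iterate_pos (by norm_num) _)]

/-! ### `19` is not on the orbit of infinity -/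

/-- the norm form: `1` at infinity and `y² - 375` at `y` -/
noncomputable def nrm (x : OnePoint ℚ) : ℚ := x.elim 1 (fun y : ℚ => y ^ 2 - 375)

lemma nrm_infty : nrm ∞ = 1 := rfl
lemma nrm_coe (y : ℚ) : nrm (y : OnePoint ℚ) = y ^ 2 - 375 := rfl

lemma nonsq (y : ℚ) : y ^ 2 - 375 ≠ 0 := by
  intro h
  have h1 : y ^ 2 = ((375 : ℕ) : ℚ) := by push_cast; linarith
  have h2 : IsSquare ((375 : ℕ) : ℚ) := ⟨y, by rw [← h1]; ring⟩
  rw [Rat.isSquare_natCast_iff] at h2
  obtain ⟨r, hr⟩ := h2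
  have : r ≤ 19 ∨ 20 ≤ r := by omega
  rcases this with h | h
  · have : r * r ≤ 19 * 19 := Nat.mul_le_mul h h
    omega
  · have : 20 * 20 ≤ r * r := Nat.mul_le_mul h h
    omega

lemma nrm_lft (d : ℚ) (x : OnePoint ℚ) :
    ∃ c : ℚ, c ≠ 0 ∧ nrm (lft 375 d x) = c ^ 2 * (d ^ 2 - 375) * nrm x := by
  have hd := nonsq d
  induction x using OnePoint.rec with
  | infty => exact ⟨1, one_ne_zero, by rw [lft_infty, nrm_coe, nrm_infty]; ring⟩
  | coe y =>
    by_cases hy : y + d = 0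
    · refine ⟨(d ^ 2 - 375)⁻¹, inv_ne_zero hd, ?_⟩
      rw [lft_coe_of_eq hy, nrm_infty, nrm_coe]
      have : y = -d := by linarith
      rw [this]
      field_simp
    · refine ⟨(y + d)⁻¹, inv_ne_zero hy, ?_⟩
      rw [lft_coe_of_ne hy, nrm_coe, nrm_coe]
      push_cast
      field_simp
      ring

lemma nrm_zpow (d : ℚ) (h : d ^ 2 ≠ ((375 : ℕ) : ℚ)) (n : ℤ) :
    ∃ c : ℚ, c ≠ 0 ∧ nrm ((lftPerm 375 d h ^ n) ∞) = c ^ 2 * (d ^ 2 - 375) ^ n := by
  have hd := nonsq d
  induction n using Int.induction_on with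
  | zero => exact ⟨1, one_ne_zero, by simp [nrm_infty]⟩
  | succ n ih =>
    obtain ⟨c, hc, hcn⟩ := ih
    obtain ⟨c', hc', hcn'⟩ := nrm_lft d ((lftPerm 375 d h ^ (n : ℤ)) ∞)
    refine ⟨c * c', mul_ne_zero hc hc', ?_⟩
    have e : (lftPerm 375 d h ^ ((n : ℤ) + 1)) ∞ = lft 375 d ((lftPerm 375 d h ^ (n : ℤ)) ∞) := by
      rw [add_comm, zpow_add, zpow_one]; rfl
    rw [e, hcn', hcn, zpow_add₀ hd, zpow_one]
    ring
  | pred n ih =>
    obtain ⟨c, hc, hcn⟩ := ih
    obtain ⟨c', hc', hcn'⟩ := nrm_lft d ((lftPerm 375 d h ^ (-(n : ℤ) - 1)) ∞)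
    refine ⟨c * c'⁻¹, mul_ne_zero hc (inv_ne_zero hc'), ?_⟩
    have e : (lftPerm 375 d h ^ (-(n : ℤ))) ∞ =
        lft 375 d ((lftPerm 375 d h ^ (-(n : ℤ) - 1)) ∞) := by
      have : (-(n : ℤ)) = 1 + (-(n : ℤ) - 1) := by ring
      conv_lhs => rw [this, zpow_add, zpow_one]
      rfl
    rw [e, hcn'] at hcn
    rw [zpow_sub₀ hd, zpow_one]
    have hc2 : c' ^ 2 ≠ 0 := pow_ne_zero 2 hc'
    field_simp
    rw [← hcn]
    ring

lemma not_on_orbit (d : ℚ) (h : d ^ 2 ≠ ((375 : ℕ) : ℚ)) (hd0 : 0 < d)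
    (hR : ∃ R : ℤ, 4 * d ^ 2 / (((375 : ℕ) : ℚ) - d ^ 2) = R) (n : ℤ) :
    (lftPerm 375 d h ^ n) ∞ ≠ ((19 : ℚ) : OnePoint ℚ) := by
  intro hn
  have : Fact (Nat.Prime 7) := ⟨by norm_num⟩
  obtain ⟨c, hc, hcn⟩ := nrm_zpow d h n
  have hd := nonsq d
  rw [hn, nrm_coe] at hcn
  have e1 : ((19 : ℚ) ^ 2 - 375) = -(7 * 2) := by norm_num
  rw [e1] at hcn
  have v1 : padicValRat 7 (-(7 * 2) : ℚ) = 1 := by
    rw [padicValRat.neg, padicValRat.mul (by norm_num) (by norm_num)]
    have h7 : padicValRat 7 (7 : ℚ) = 1 := by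
      have := padicValRat.self (p := 7) (by norm_num)
      simpa using this
    have h2 : padicValRat 7 (2 : ℚ) = 0 := by
      have : padicValRat 7 ((2 : ℕ) : ℚ) = 0 := by
        rw [padicValRat.of_nat, padicValNat.eq_zero_of_not_dvd (by norm_num)]; rfl
      simpa using this
    rw [h7, h2]; norm_num
  rw [hcn, padicValRat.mul (pow_ne_zero 2 hc) (zpow_ne_zero n hd), padicValRat.pow,
    padicValRat.zpow] at v1
  have v375 : padicValRat 7 (-375 : ℚ) = 0 := by
    rw [padicValRat.neg]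
    have : padicValRat 7 ((375 : ℕ) : ℚ) = 0 := by
      rw [padicValRat.of_nat, padicValNat.eq_zero_of_not_dvd (by norm_num)]; rfl
    simpa using this
  have vd2 : padicValRat 7 (d ^ 2) = 2 * padicValRat 7 d := by
    rw [padicValRat.pow]; norm_num
  set v := padicValRat 7 (d ^ 2 - 375) with hv
  have hsum : d ^ 2 + -375 ≠ 0 := by rw [← sub_eq_add_neg]; exact hd
  rw [sub_eq_add_neg] at hv
  obtain ⟨R, hR⟩ := hR
  rcases lt_trichotomy (padicValRat 7 d) 0 with ha | ha | ha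
  · have : v = 2 * padicValRat 7 d := by
      rw [hv, padicValRat.add_eq_of_lt hsum (by positivity) (by norm_num)
        (by rw [v375, vd2]; linarith), vd2]
    rw [this] at v1
    have h2 : 2 * (padicValRat 7 c + n * padicValRat 7 d) = 1 := by
      push_cast at v1 ⊢
      linarith
    omega
  · have hv0 : 0 ≤ v := by
      have := padicValRat.min_le_padicValRat_add (p := 7) hsum
      rw [v375, vd2, ha] at this
      rw [hv]
      simpa using this
    have hvR : padicValRat 7 (4 * d ^ 2 / (((375 : ℕ) : ℚ) - d ^ 2)) = -v := by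
      have h4 : padicValRat 7 (4 : ℚ) = 0 := by
        have : padicValRat 7 ((4 : ℕ) : ℚ) = 0 := by
          rw [padicValRat.of_nat, padicValNat.eq_zero_of_not_dvd (by norm_num)]; rfl
        simpa using this
      have e2 : (((375 : ℕ) : ℚ) - d ^ 2) = -(d ^ 2 + -375) := by push_cast; ring
      rw [e2, padicValRat.div (by positivity) (neg_ne_zero.mpr hsum),
        padicValRat.mul (by norm_num) (by positivity), padicValRat.neg, h4, vd2, ha, ← hv]
      ring
    rw [hR, padicValRat.of_int] at hvR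
    have hv00 : v = 0 := by omega
    rw [hv00] at v1
    push_cast at v1
    omega
  · have : v = 0 := by
      rw [hv, add_comm, padicValRat.add_eq_of_lt (by rw [add_comm]; exact hsum) (by norm_num)
        (by positivity) (by rw [v375, vd2]; linarith), v375]
    rw [this] at v1
    push_cast at v1
    omega

lemma not_isSquare : ¬ IsSquare 375 := by
  rintro ⟨r, hr⟩
  have : r ≤ 19 ∨ 20 ≤ r := by omega
  rcases this with h | h
  · have : r * r ≤ 19 * 19 := Nat.mul_le_mul h h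
    omega
  · have : 20 * 20 ≤ r * r := Nat.mul_le_mul h h
    omega

/-- **Two convergents per period in one orbit.**  There are a non-square `k`, a positive integer
`d` with `d² < k` and `R = 4 d² / (k - d²) ∈ ℤ`, and a rational `x₀` such that:

* `x₀` is not of the form `f^n(∞)`, `n ∈ ℤ`, for `f = f_d` (and also not for `f = f_{d'}` with any
  other positive rational `d'` for which `4 d'² / (k - d'²) ∈ ℤ`);
* there are indices `i ≢ j (mod L)`, with `L` the minimal period length of the continued fraction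
  of `√k`, such that for every `t ≥ 0` both convergents `p_{i+tL}/q_{i+tL}` and
  `p_{j+tL}/q_{j+tL}` lie in the forward orbit of `x₀` (`t = 0` gives `p_i/q_i` and `p_j/q_j`). -/
theorem result : ∃ (k d : ℕ) (x₀ : ℚ), ¬ IsSquare k ∧ 0 < d ∧ d ^ 2 < k ∧
    (∃ R : ℤ, 4 * (d : ℚ) ^ 2 / ((k : ℚ) - (d : ℚ) ^ 2) = R) ∧
    (∀ (h : (d : ℚ) ^ 2 ≠ (k : ℚ)) (n : ℤ), (lftPerm k d h ^ n) ∞ ≠ (x₀ : OnePoint ℚ)) ∧
    (∀ (d' : ℚ) (h : d' ^ 2 ≠ (k : ℚ)), 0 < d' →
      (∃ R : ℤ, 4 * d' ^ 2 / ((k : ℚ) - d' ^ 2) = R) →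
      ∀ n : ℤ, (lftPerm k d' h ^ n) ∞ ≠ (x₀ : OnePoint ℚ)) ∧
    ∃ L i j : ℕ, IsPeriodLength k L ∧ 1 ≤ i ∧ 1 ≤ j ∧ ¬ i ≡ j [MOD L] ∧
      ∀ t : ℕ, conv k (i + t * L) ∈ orbit k d x₀ ∧ conv k (j + t * L) ∈ orbit k d x₀ := by
  refine ⟨375, 15, 19, not_isSquare, by norm_num, by norm_num, ⟨6, by norm_num⟩, ?_, ?_,
    10, 1, 8, isPeriodLength, le_refl _, by norm_num, by decide, fun t => ⟨⟨t * 10, ?_⟩,
    ⟨5 + t * 10, ?_⟩⟩⟩
  · intro h n
    exact not_on_orbit _ h (by norm_num) ⟨6, by norm_num⟩ n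
  · intro d' h hd' hR n
    exact not_on_orbit d' h hd' hR n
  · rw [lft_iterate (by norm_num), ← conv_one_add, conv, root_eq, show 1 + t * 10 - 1 = t * 10 by omega]
  · rw [lft_iterate (by norm_num), ← conv_eight_add, conv, root_eq,
      show 8 + t * 10 - 1 = 7 + t * 10 by omega]

end Pool.Agent.Results.MP_f17d28_nt.TwoPerPeriod
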